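import Pool.Agent.H66.XP.TH

/-!
# MP_0f8dca_lc, board xpm_modules, row NU2: numbers
-/

set_option autoImplicit false

namespace Pool.Agent.H40.XP

open Pool.Agent.H66.XP

theorem nu2_aux (p q r : ℕ) (h : p + r ≤ q) : (2 : ℝ) ^ p * (1 / 2) ^ q ≤ (1 / 2) ^ r := by
  have h1 : (1 / 2 : ℝ) ^ q ≤ (1 / 2) ^ (p + r) :=
    pow_le_pow_of_le_one (by norm_num) (by norm_num) h
  have h2 : (2 : ℝ) ^ p * (1 / 2) ^ p = 1 := by rw [← mul_pow]; norm_num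
  calc (2 : ℝ) ^ p * (1 / 2) ^ q ≤ 2 ^ p * (1 / 2) ^ (p + r) := by gcongr
    _ = (2 ^ p * (1 / 2) ^ p) * (1 / 2) ^ r := by rw [pow_add]; ring
    _ = (1 / 2) ^ r := by rw [h2, one_mul]

/-- Row NU2. -/
theorem pf_NU2 : T_NU2 := by
  refine ⟨10000, fun n hn => ?_⟩
  push_cast
  have hE : (1 : ℝ) / (1 / 2) ^ (n / 64) = 2 ^ (n / 64) := by
    rw [one_div_pow, one_div_one_div]
  have hB : (1 : ℝ) / 2 ^ (n / 32) = (1 / 2) ^ (n / 32) := by rw [one_div_pow]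
  have e1 : (32 : ℝ) / ((1 / 2) ^ (n / 64)) ^ 2 = 2 ^ (5 + 2 * (n / 64)) := by
    have : (32 : ℝ) / ((1 / 2) ^ (n / 64)) ^ 2 = 32 * (1 / (1 / 2) ^ (n / 64)) ^ 2 := by
      rw [one_div_pow ((1 / 2 : ℝ) ^ (n / 64)) 2]; ring
    rw [this, hE, pow_add, ← pow_mul, mul_comm (n / 64) 2]; norm_num
  have e2 : (2 : ℝ) / (1 / 2) ^ (n / 64) = 2 ^ (1 + n / 64) := by
    have : (2 : ℝ) / (1 / 2) ^ (n / 64) = 2 * (1 / (1 / 2) ^ (n / 64)) := by ring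
    rw [this, hE, pow_add]; norm_num
  have e3 : (36 : ℝ) / ((1 / 2) ^ (n / 64)) ^ 2 + 4 / (1 / 2) ^ (n / 64) ≤
      2 ^ (6 + 2 * (n / 64)) := by
    have h0 : (36 : ℝ) / ((1 / 2) ^ (n / 64)) ^ 2 = 36 * (1 / (1 / 2) ^ (n / 64)) ^ 2 := by
      rw [one_div_pow ((1 / 2 : ℝ) ^ (n / 64)) 2]; ring
    have h1 : (4 : ℝ) / (1 / 2) ^ (n / 64) = 4 * (1 / (1 / 2) ^ (n / 64)) := by ring
    rw [h0, h1, hE, pow_add, mul_comm 2 (n / 64), pow_mul]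
    have h2 : (1 : ℝ) ≤ 2 ^ (n / 64) := one_le_pow₀ (by norm_num)
    nlinarith
  rw [e1, e2, hB]
  have t1 := nu2_aux (5 + 2 * (n / 64)) (n / 3) (n / 100 + 3) (by omega)
  have t2 := nu2_aux (1 + n / 64) (n / 32) (n / 100 + 3) (by omega)
  have t3 := nu2_aux (1 + n / 64) (n / 3) (n / 100 + 3) (by omega)
  have t4 := nu2_aux (6 + 2 * (n / 64)) (n / 2) (n / 100 + 3) (by omega)
  have t5 : ((36 : ℝ) / ((1 / 2) ^ (n / 64)) ^ 2 + 4 / (1 / 2) ^ (n / 64)) * (1 / 2) ^ (n / 2) ≤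
      (1 / 2) ^ (n / 100 + 3) := le_trans (by gcongr) t4
  have h8 : (1 / 2 : ℝ) ^ (n / 100 + 3) = (1 / 2) ^ (n / 100) / 8 := by
    rw [pow_add]; ring
  have h9 : (0 : ℝ) ≤ (1 / 2) ^ (n / 100) := by positivity
  rw [h8] at t1 t2 t3 t5
  rw [mul_add]
  nlinarith

end Pool.Agent.H40.XP
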