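import Pool.Agent.H66.XP.TI
import Pool.Agent.H40.XP.FMY

/-!
# Exponential time in EQP: row FMZ (finitely many requirements, protocols with advice)
-/

set_option autoImplicit false

namespace Pool.Agent.H40.XP

open Finset Pool.Agent.H70.OQ
open Pool.Agent.H70.EH hiding T_NUM
open Pool.Agent.H78.XQ hiding T_POW T_SUM
open Pool.Agent.H6.NB hiding sg T_NUM
open Pool.Agent.H70.EI hiding T_AST
open Pool.Agent.H66.IP (Local ins sp dm IsZ scl)
open Pool.Agent.H66.IQ
open Pool.Agent.H66.AV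
open Pool.Agent.H66.XP

/-- a geometric sum in blocks of length `200` -/
theorem fmz_geo (a M : ℕ) (h : 200 * a ≤ M) :
    ∑ n ∈ Ico (200 * a) M, (1 / 2 : ℝ) ^ (n / 200) =
      400 * (1 / 2) ^ a - (400 - ((M % 200 : ℕ) : ℝ)) * (1 / 2) ^ (M / 200) := by
  induction M, h using Nat.le_induction with
  | base =>
    rw [Ico_self, sum_empty, Nat.mul_mod_right, Nat.mul_div_cancel_left a (by norm_num)]
    push_cast
    ring
  | succ M h ih =>
    rw [Finset.sum_Ico_succ_top h, ih]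
    by_cases h1 : M % 200 = 199
    · have h2 : (M + 1) / 200 = M / 200 + 1 := by omega
      have h3 : (M + 1) % 200 = 0 := by omega
      rw [h2, h3, h1, pow_succ]
      push_cast
      ring
    · have h2 : (M + 1) / 200 = M / 200 := by omega
      have h3 : (M + 1) % 200 = M % 200 + 1 := by omega
      rw [h2, h3]
      push_cast
      ring

theorem fmz_geo' (a M : ℕ) : ∑ n ∈ Ico (200 * a) M, (1 / 2 : ℝ) ^ (n / 200) ≤
    400 * (1 / 2) ^ a := by
  by_cases h : 200 * a ≤ M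
  · rw [fmz_geo a M h]
    have h1 : ((M % 200 : ℕ) : ℝ) ≤ 400 := by
      have : M % 200 ≤ 400 := by omega
      exact_mod_cast this
    have h2 : 0 ≤ (400 - ((M % 200 : ℕ) : ℝ)) * (1 / 2) ^ (M / 200) :=
      mul_nonneg (by linarith) (by positivity)
    linarith
  · rw [Finset.Ico_eq_empty (by omega), Finset.sum_empty]
    positivity

theorem fmz_geo2 (M : ℕ) (N : ℕ → ℕ) (hN : ∀ j, 200 * (j + 14) ≤ N j) :
    ∑ j ∈ range M, ∑ n ∈ (range M).filter (fun n => N j ≤ n), 2 * (1 / 2 : ℝ) ^ (n / 200) ≤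
      1 / 10 := by
  have h1 : ∀ j ∈ range M, ∑ n ∈ (range M).filter (fun n => N j ≤ n),
      2 * (1 / 2 : ℝ) ^ (n / 200) ≤ 800 / 16384 * (1 / 2) ^ j := by
    intro j _
    have h2 : ∑ n ∈ (range M).filter (fun n => N j ≤ n), (1 / 2 : ℝ) ^ (n / 200) ≤
        ∑ n ∈ Ico (200 * (j + 14)) M, (1 / 2 : ℝ) ^ (n / 200) := by
      refine Finset.sum_le_sum_of_subset_of_nonneg (fun n hn => ?_)
        fun n _ _ => by positivity
      rw [mem_filter, mem_range] at hn
      rw [mem_Ico]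
      exact ⟨(hN j).trans hn.2, hn.1⟩
    rw [← Finset.mul_sum]
    have h3 := h2.trans (fmz_geo' (j + 14) M)
    rw [pow_add] at h3
    norm_num at h3 ⊢
    linarith
  refine (Finset.sum_le_sum h1).trans ?_
  rw [← Finset.mul_sum]
  have h3 := sum_geometric_two_le M
  linarith

open Classical in
/-- the advice strings of length at most `L` -/
noncomputable def adv (L : ℕ) : Finset (List Bool) :=
  (range (L + 1)).biUnion fun l => (univ : Finset (Fin l → Bool)).image List.ofFn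

theorem mem_adv (L : ℕ) (a : List Bool) (h : a.length ≤ L) : a ∈ adv L := by
  classical
  unfold adv
  rw [mem_biUnion]
  refine ⟨a.length, mem_range.2 (by omega), ?_⟩
  rw [mem_image]
  exact ⟨a.get, mem_univ _, List.ofFn_get a⟩

theorem card_adv (L : ℕ) : (adv L).card ≤ 2 ^ (L + 1) := by
  classical
  unfold adv
  refine Finset.card_biUnion_le.trans ?_
  have h1 : ∀ l ∈ range (L + 1), ((univ : Finset (Fin l → Bool)).image List.ofFn).card ≤
      2 ^ l := by
    intro l _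
    refine Finset.card_image_le.trans (le_of_eq ?_)
    rw [Finset.card_univ, Fintype.card_fun, Fintype.card_bool, Fintype.card_fin]
  refine (Finset.sum_le_sum h1).trans ?_
  have h2 : ∀ m : ℕ, ∑ l ∈ range m, 2 ^ l ≤ 2 ^ m := by
    intro m
    induction m with
    | zero => simp
    | succ m ih =>
      rw [Finset.sum_range_succ, pow_succ]
      omega
  exact h2 (L + 1)

theorem adv_le (n : ℕ) : ((adv (n / 200)).card : ℝ) * (1 / 2) ^ (n / 100) ≤
    2 * (1 / 2) ^ (n / 200) := by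
  have h1 : ((adv (n / 200)).card : ℝ) ≤ 2 ^ (n / 200 + 1) := by
    exact_mod_cast card_adv (n / 200)
  have h2 : (1 / 2 : ℝ) ^ (n / 100) ≤ (1 / 2) ^ (n / 200 + n / 200) :=
    pow_le_pow_of_le_one (by norm_num) (by norm_num) (by omega)
  have h3 : (2 : ℝ) ^ (n / 200 + 1) * (1 / 2) ^ (n / 200 + n / 200) = 2 * (1 / 2) ^ (n / 200) := by
    have h4 : (2 : ℝ) ^ (n / 200) * (1 / 2) ^ (n / 200) = 1 := by
      rw [← mul_pow]
      norm_num
    rw [pow_succ, pow_add]
    linear_combination 2 * (1 / 2) ^ (n / 200) * h4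
  calc ((adv (n / 200)).card : ℝ) * (1 / 2) ^ (n / 100) ≤
      2 ^ (n / 200 + 1) * (1 / 2) ^ (n / 200 + n / 200) :=
        mul_le_mul h1 h2 (by positivity) (by positivity)
    _ = _ := h3

open Classical in
theorem pf_FMZ (hSUY : T_SUY) (hWMX : T_WMX) (hHIT : T_HIT) (hVWX : T_VWX) (hGZX : T_GZX)
    (hSPF : Pool.Agent.H66.IP.T_SPF) (hISZ : Pool.Agent.H66.IP.T_ISZ)
    (hALG : Pool.Agent.H66.AV.T_ALG) (hOVL : Pool.Agent.H66.AV.T_OVL) : T_FMZ := by
  intro V G hG
  choose n₀ hn₀ using hG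
  have hS := fun j => hSUY V (G j).1
  choose n₁ hn₁ using hS
  have hS2 : ∀ (j n : ℕ) (a : List Bool) (h : max (n₀ j) (n₁ j) ≤ n ∧ 200 * a.length ≤ n), _ :=
    fun j n a h => hn₁ j n ((le_max_right _ _).trans h.1) ((G j).2 a) fun x => by
      have h1 := hn₀ j a (List.ofFn x)
      rw [List.length_ofFn] at h1
      exact h1 ((le_max_left _ _).trans h.1) h.2
  choose A C hAC using hS2
  refine ⟨fun j => max (max (n₀ j) (n₁ j)) (200 * (j + 14)), fun M => ?_⟩
  set N : ℕ → ℕ := fun j => max (max (n₀ j) (n₁ j)) (200 * (j + 14)) with hN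
  have hN1 : ∀ j, max (n₀ j) (n₁ j) ≤ N j := fun j => le_max_left _ _
  have hN2 : ∀ j, 200 * (j + 14) ≤ N j := fun j => le_max_right _ _
  obtain ⟨_, _, _, _, _, s6⟩ := hSPF (lo V)
  set E : Finset (ℕ × List Bool) := (s6 M).toFinset with hE
  have hmem : ∀ p, p ∈ E ↔ (sp (lo V) p).length ≤ M := by
    intro p
    rw [hE, Set.Finite.mem_toFinset]
    rfl
  obtain ⟨OO, hOO⟩ := hISZ (dm (lo V)) E
  set M' : ℕ := M + ∑ i ∈ range M, (G i).1 + 1 with hM'
  have hk : ∀ j, j < M → (G j).1 < M' := by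
    intro j hj
    have h1 : (G j).1 ≤ ∑ i ∈ range M, (G i).1 :=
      Finset.single_le_sum (f := fun i => (G i).1) (fun i _ => Nat.zero_le _) (mem_range.2 hj)
    omega
  have hn : ∀ n, n < M → n < M' := fun n hn => by omega
  -- the test functions
  let D : ℕ → ℕ → List Bool → Za M' → (∀ p : {a // a ∈ E}, Cp V p.1) → ℝ := fun j n a z P =>
    if h : (max (n₀ j) (n₁ j) ≤ n ∧ 200 * a.length ≤ n) ∧ j < M ∧ n < M then
      tst ((1 / 2) ^ (n / 64)) (A j n a h.1) (C j n a h.1)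
        (fun T => OO P (ovl n (G j).1 (gzx M' z) T)) (z (⟨(G j).1, hk j h.2.1⟩, ⟨n, hn n h.2.2⟩))
    else 0
  have hD0 : ∀ j n a z P, 0 ≤ D j n a z P := by
    intro j n a z P
    by_cases h : (max (n₀ j) (n₁ j) ≤ n ∧ 200 * a.length ≤ n) ∧ j < M ∧ n < M
    · simp only [D, dif_pos h]
      exact ((hAC j n a h.1).1 _ _).1
    · simp only [D, dif_neg h]
      exact le_rfl
  have hnC : (0 : ℝ) ≤ nC V E := Nat.cast_nonneg _
  have hD1 : ∀ j n a, ∑ z : Za M', ∑ B, ∑ P, wY V E OO (gzx M' z) B P * D j n a z P ≤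
      Fintype.card (Za M') * nC V E * (1 / 2) ^ (n / 100) := by
    intro j n a
    by_cases h : (max (n₀ j) (n₁ j) ≤ n ∧ 200 * a.length ≤ n) ∧ j < M ∧ n < M
    · simp only [D, dif_pos h]
      exact (hAC j n a h.1).2 M' (hk j h.2.1) (hn n h.2.2) E OO hOO
    · simp only [D, dif_neg h, mul_zero, Finset.sum_const_zero]
      positivity
  have hcard : (0 : ℝ) < Fintype.card (Za M') := by
    have := fmy_za M'
    exact_mod_cast Fintype.card_pos
  have hne : Nonempty (∀ p : {a // a ∈ E}, Cp V p.1) :=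
    ⟨fun _ => (fun _ _ => false, fun _ => false)⟩
  have hnC' : (0 : ℝ) < nC V E := by
    unfold nC
    exact_mod_cast Fintype.card_pos
  -- the weight, the hits, the tests
  let W : Za M' → (∀ p : {a // a ∈ E}, Cp V p.1) → (∀ p : {a // a ∈ E}, Cp V p.1) → ℝ :=
    fun z B P => wY V E OO (gzx M' z) B P
  let T1 : Za M' → (∀ p : {a // a ∈ E}, Cp V p.1) → (∀ p : {a // a ∈ E}, Cp V p.1) → ℝ :=
    fun z B P => if ∃ a ∈ E, Hit V E OO (gzx M' z) P B a then 1 else 0
  let T2 : Za M' → (∀ p : {a // a ∈ E}, Cp V p.1) → (∀ p : {a // a ∈ E}, Cp V p.1) → ℝ :=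
    fun z _ P => ∑ j ∈ range M, ∑ n ∈ (range M).filter (fun n => N j ≤ n),
      ∑ a ∈ adv (n / 200), D j n a z P
  have hW0 : ∀ z B P, 0 ≤ W z B P := fun z B P => ((hWMX V E OO hOO (gzx M' z) B).1 P).1
  have hW : (Fintype.card (Za M') : ℝ) * nC V E * (3 / 4) ≤ ∑ z, ∑ B, ∑ P, W z B P := by
    have h2 : ∑ _z : Za M', ∑ _B : (∀ p : {a // a ∈ E}, Cp V p.1), (3 / 4 : ℝ) ≤
        ∑ z : Za M', ∑ B, ∑ P, wY V E OO (gzx M' z) B P :=
      Finset.sum_le_sum fun z _ => Finset.sum_le_sum fun B _ =>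
        (hWMX V E OO hOO (gzx M' z) B).2.2.2.1
    refine le_trans (le_of_eq ?_) h2
    rw [Finset.sum_const, Finset.sum_const, Finset.card_univ, Finset.card_univ, nsmul_eq_mul,
      nsmul_eq_mul, mul_assoc]
    rfl
  have hH : ∑ z, ∑ B, ∑ P, W z B P * T1 z B P ≤
      (Fintype.card (Za M') : ℝ) * nC V E * (1 / 4) := hHIT V M' E OO hOO
  have hT : ∑ z, ∑ B, ∑ P, W z B P * T2 z B P ≤
      (Fintype.card (Za M') : ℝ) * nC V E * (1 / 10) := by
    have e0 : ∑ z, ∑ B, ∑ P, W z B P * T2 z B P = ∑ j ∈ range M, ∑ z, ∑ B, ∑ P,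
        W z B P * ∑ n ∈ (range M).filter (fun n => N j ≤ n), ∑ a ∈ adv (n / 200), D j n a z P :=
      fmy_swap (range M) W (fun j z _ P => ∑ n ∈ (range M).filter (fun n => N j ≤ n),
        ∑ a ∈ adv (n / 200), D j n a z P)
    rw [e0]
    have e2 : ∀ j ∈ range M, ∑ z, ∑ B, ∑ P, W z B P *
        ∑ n ∈ (range M).filter (fun n => N j ≤ n), ∑ a ∈ adv (n / 200), D j n a z P ≤
        ∑ n ∈ (range M).filter (fun n => N j ≤ n),
          (Fintype.card (Za M') : ℝ) * nC V E * (2 * (1 / 2) ^ (n / 200)) := by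
      intro j _
      have e1 : ∑ z, ∑ B, ∑ P, W z B P *
          ∑ n ∈ (range M).filter (fun n => N j ≤ n), ∑ a ∈ adv (n / 200), D j n a z P =
          ∑ n ∈ (range M).filter (fun n => N j ≤ n), ∑ z, ∑ B, ∑ P,
            W z B P * ∑ a ∈ adv (n / 200), D j n a z P :=
        fmy_swap ((range M).filter (fun n => N j ≤ n)) W
          (fun n z _ P => ∑ a ∈ adv (n / 200), D j n a z P)
      rw [e1]
      refine Finset.sum_le_sum fun n _ => ?_
      have e4 : ∑ z, ∑ B, ∑ P, W z B P * ∑ a ∈ adv (n / 200), D j n a z P =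
          ∑ a ∈ adv (n / 200), ∑ z, ∑ B, ∑ P, W z B P * D j n a z P :=
        fmy_swap (adv (n / 200)) W (fun a z _ P => D j n a z P)
      rw [e4]
      have e5 : ∑ a ∈ adv (n / 200), ∑ z, ∑ B, ∑ P, W z B P * D j n a z P ≤
          (adv (n / 200)).card • (Fintype.card (Za M') * nC V E * (1 / 2 : ℝ) ^ (n / 100)) :=
        Finset.sum_le_card_nsmul _ _ _ fun a _ => hD1 j n a
      refine e5.trans ?_
      rw [nsmul_eq_mul]
      have e6 : (0 : ℝ) ≤ Fintype.card (Za M') * nC V E := by positivity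
      have e7 := mul_le_mul_of_nonneg_left (adv_le n) e6
      linarith
    refine (Finset.sum_le_sum e2).trans ?_
    have e3 : ∑ j ∈ range M, ∑ n ∈ (range M).filter (fun n => N j ≤ n),
        (Fintype.card (Za M') : ℝ) * nC V E * (2 * (1 / 2) ^ (n / 200)) =
        Fintype.card (Za M') * nC V E * ∑ j ∈ range M,
          ∑ n ∈ (range M).filter (fun n => N j ≤ n), 2 * (1 / 2 : ℝ) ^ (n / 200) := by
      rw [Finset.mul_sum]
      exact Finset.sum_congr rfl fun j _ => (Finset.mul_sum _ _ _).symm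
    rw [e3]
    exact mul_le_mul_of_nonneg_left (fmz_geo2 M N hN2) (by positivity)
  obtain ⟨z, B, P, hw, hy⟩ : ∃ z B P, 0 < W z B P ∧ T1 z B P + T2 z B P < 1 := by
    refine fmy_pt W (fun z B P => T1 z B P + T2 z B P) hW0 ?_
    rw [fmy_add W T1 T2]
    have h2 : 0 < (Fintype.card (Za M') : ℝ) * nC V E := mul_pos hcard hnC'
    linarith
  have hT10 : 0 ≤ T1 z B P := by
    simp only [T1]
    split_ifs <;> norm_num
  have hT20 : 0 ≤ T2 z B P :=
    Finset.sum_nonneg fun j _ => Finset.sum_nonneg fun n _ =>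
      Finset.sum_nonneg fun a _ => hD0 _ _ _ _ _
  have hhit : ∀ a ∈ E, ¬ Hit V E OO (gzx M' z) P B a := by
    intro a ha h
    have h1 : T1 z B P = 1 := by
      simp only [T1]
      rw [if_pos ⟨a, ha, h⟩]
    linarith
  have hDz : ∑ j ∈ range M, ∑ n ∈ (range M).filter (fun n => N j ≤ n),
      ∑ a ∈ adv (n / 200), D j n a z P < 1 := by
    have h1 : T2 z B P < 1 := by linarith
    exact h1
  have hDz' : ∀ j n a, j < M → n < M → N j ≤ n → 200 * a.length ≤ n → D j n a z P < 1 := by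
    intro j n a hj hn' hNn ha
    refine lt_of_le_of_lt ?_ hDz
    have h0 : D j n a z P ≤ ∑ a ∈ adv (n / 200), D j n a z P :=
      Finset.single_le_sum (f := fun a => D j n a z P) (fun i _ => hD0 _ _ _ _ _)
        (mem_adv _ _ (by omega))
    have h1 : ∑ a ∈ adv (n / 200), D j n a z P ≤
        ∑ n ∈ (range M).filter (fun n => N j ≤ n), ∑ a ∈ adv (n / 200), D j n a z P :=
      Finset.single_le_sum (f := fun n => ∑ a ∈ adv (n / 200), D j n a z P)
        (fun i _ => Finset.sum_nonneg fun a _ => hD0 _ _ _ _ _)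
        (mem_filter.2 ⟨mem_range.2 hn', hNn⟩)
    exact (h0.trans h1).trans (Finset.single_le_sum
      (f := fun j => ∑ n ∈ (range M).filter (fun n => N j ≤ n),
        ∑ a ∈ adv (n / 200), D j n a z P)
      (fun i _ => Finset.sum_nonneg fun n _ => Finset.sum_nonneg fun a _ => hD0 _ _ _ _ _)
      (mem_range.2 hj))
  have hfac : ∀ p : {a // a ∈ E}, lwX V E OO (gzx M' z) B P p (P p) ≠ 0 := by
    intro p h0
    refine hw.ne' ?_
    exact Finset.prod_eq_zero (Finset.mem_univ p) h0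
  have hok : ∀ p : {a // a ∈ E},
      OkC (qs (sp (lo V) p.1)) (sp (lo V) p.1).length (rns (sp (lo V) p.1)) (wln (sp (lo V) p.1))
        (an V E OO (gzx M' z) P B p.1) (P p) ∧
      Ag (msk V E OO (gzx M' z) P B p.1) (B p) (P p) := by
    intro p
    have h1 := hfac p
    unfold lwX mXp mX at h1
    by_contra h2
    rw [if_neg h2] at h1
    exact h1 rfl
  have hev : ∀ a ∈ E, ((V a.1).tree a.2).eval (OO P (gzx M' z)) = an V E OO (gzx M' z) P B a :=
    fun a ha => hVWX V E OO hOO (gzx M' z) P B (fun p => (hok p).2) a ha (hhit a ha)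
  refine ⟨OO P (gzx M' z), fun p hp => ?_, fun j hj n hn' hNn a ha => ?_⟩
  · have hpE : p ∈ E := (hmem p).2 hp
    unfold GoodX
    have h5 : (cps (OO P (gzx M' z)) (sp (lo V) p), cst (OO P (gzx M' z)) (sp (lo V) p)) =
        P ⟨p, hpE⟩ := Prod.ext (hOO.blk P _ p hpE) (hOO.cor P _ p hpE)
    rw [h5, hev p hpE]
    exact (hok ⟨p, hpE⟩).1
  · have h : (max (n₀ j) (n₁ j) ≤ n ∧ 200 * a.length ≤ n) ∧ j < M ∧ n < M :=
      ⟨⟨(hN1 j).trans hNn, ha⟩, hj, hn'⟩
    have h1 := hDz' j n a hj hn' hNn ha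
    simp only [D, dif_pos h] at h1
    set t : Fin M' × Fin M' := (⟨(G j).1, hk j h.2.1⟩, ⟨n, hn n h.2.2⟩) with ht
    have h2 : ovl n (G j).1 (gzx M' z) (tbl (z t)) = gzx M' z := by
      have h3 := hGZX.1 M' z t (z t)
      rw [Function.update_eq_self] at h3
      exact h3.symm
    have h4 : ∀ x, List.ofFn x ∈ alang (G j).1
        ((fun T => OO P (ovl n (G j).1 (gzx M' z) T)) (tbl (z t))) ↔ (z t x).1 = true := by
      intro x
      refine hALG.1 n (G j).1 (z t) x _ fun q => ?_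
      exact ((hOVL n (G j).1 (gzx M' z)).2.2.2 (lo V) E OO hOO P).2 (tbl (z t)) x q
    have h5 := ((hAC j n a h.1).1 (fun T => OO P (ovl n (G j).1 (gzx M' z) T)) (z t)).2 h4 h1
    rw [h2] at h5
    exact h5

end Pool.Agent.H40.XP
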